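import Mathlib

/-!
Word metrics on the integers given by the products of powers of finitely many primes, and coarse
homomorphisms between them.
-/

set_option autoImplicit false

namespace Pool.Agent.X123.Coarse

open Finset

/-- `Q^*`: the products `∏_{q ∈ Q} q ^ (a q)` with nonnegative exponents -/
def star (Q : Finset ℕ) : Set ℕ := {n | ∃ a : ℕ → ℕ, n = ∏ q ∈ Q, q ^ a q}

/-- the symmetric generating set `Q^* ∪ (-Q^*)` -/
def gen (Q : Finset ℕ) : Set ℤ := {x | ∃ n ∈ star Q, x = (n : ℤ) ∨ x = -(n : ℤ)}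

/-- the word metric `d_Q` on the integers: the least `k` such that `m - n` is a sum of `k` elements
of `Q^* ∪ (-Q^*)` -/
noncomputable def dist (Q : Finset ℕ) (m n : ℤ) : ℕ :=
  sInf {k : ℕ | ∃ s : Fin k → ℤ, (∀ i, s i ∈ gen Q) ∧ m - n = ∑ i, s i}

/-- `f : (ℤ, d_P) → (ℤ, d_Q)` is controlled -/
def Controlled (P Q : Finset ℕ) (f : ℤ → ℤ) : Prop :=
  ∀ r : ℕ, ∃ R : ℕ, ∀ x y : ℤ, dist P x y ≤ r → dist Q (f x) (f y) ≤ R

/-- `f : (ℤ, d_P) → (ℤ, d_Q)` is a coarse homomorphism -/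
def CoarseHom (P Q : Finset ℕ) (f : ℤ → ℤ) : Prop :=
  Controlled P Q f ∧ ∃ C : ℕ, ∀ x y : ℤ, dist Q (f (x + y)) (f x + f y) ≤ C

/-- `f : (ℤ, d_P) → (ℤ, d_Q)` is a coarse isomorphism -/
def CoarseIso (P Q : Finset ℕ) (f : ℤ → ℤ) : Prop :=
  CoarseHom P Q f ∧ ∃ g : ℤ → ℤ, Controlled Q P g ∧
    ∃ D : ℕ, ∀ x : ℤ, dist P (g (f x)) x ≤ D ∧ dist Q (f (g x)) x ≤ D

/-- the word length -/
noncomputable def nrm (Q : Finset ℕ) (x : ℤ) : ℕ :=
  sInf {k : ℕ | ∃ s : Fin k → ℤ, (∀ i, s i ∈ gen Q) ∧ x = ∑ i, s i}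

lemma dist_eq (Q : Finset ℕ) (m n : ℤ) : dist Q m n = nrm Q (m - n) := rfl

lemma one_mem_star (Q : Finset ℕ) : 1 ∈ star Q := ⟨fun _ => 0, by simp⟩

lemma one_mem_gen (Q : Finset ℕ) : (1 : ℤ) ∈ gen Q := ⟨1, one_mem_star Q, Or.inl (by simp)⟩

lemma neg_mem_gen {Q : Finset ℕ} {x : ℤ} (h : x ∈ gen Q) : -x ∈ gen Q := by
  obtain ⟨n, hn, h | h⟩ := h
  · exact ⟨n, hn, Or.inr (by rw [h])⟩
  · exact ⟨n, hn, Or.inl (by rw [h, neg_neg])⟩

lemma mul_mem_star {Q : Finset ℕ} {m n : ℕ} (hm : m ∈ star Q) (hn : n ∈ star Q) :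
    m * n ∈ star Q := by
  obtain ⟨a, rfl⟩ := hm
  obtain ⟨b, rfl⟩ := hn
  refine ⟨fun q => a q + b q, ?_⟩
  rw [← Finset.prod_mul_distrib]
  exact Finset.prod_congr rfl fun q _ => (pow_add _ _ _).symm

lemma pow_mem_star {Q : Finset ℕ} {m : ℕ} (hm : m ∈ star Q) (k : ℕ) : m ^ k ∈ star Q := by
  induction k with
  | zero => simpa using one_mem_star Q
  | succ k ih => rw [pow_succ]; exact mul_mem_star ih hm

lemma mem_star_of_mem {Q : Finset ℕ} {q : ℕ} (hq : q ∈ Q) : q ∈ star Q := by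
  classical
  refine ⟨fun r => if r = q then 1 else 0, ?_⟩
  rw [Finset.prod_eq_single q]
  · simp
  · intro b _ hb
    simp [hb]
  · intro h
    exact absurd hq h

lemma mul_mem_gen {Q : Finset ℕ} {n : ℕ} {x : ℤ} (hn : n ∈ star Q) (hx : x ∈ gen Q) :
    (n : ℤ) * x ∈ gen Q := by
  obtain ⟨m, hm, h | h⟩ := hx
  · exact ⟨n * m, mul_mem_star hn hm, Or.inl (by rw [h]; push_cast; ring)⟩
  · exact ⟨n * m, mul_mem_star hn hm, Or.inr (by rw [h]; push_cast; ring)⟩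

/-- `x` is a sum of `k` generators -/
def Rep (Q : Finset ℕ) (k : ℕ) (x : ℤ) : Prop :=
  ∃ s : Fin k → ℤ, (∀ i, s i ∈ gen Q) ∧ x = ∑ i, s i

lemma Rep.zero (Q : Finset ℕ) : Rep Q 0 0 := ⟨fun i => 0, fun i => i.elim0, by simp⟩

lemma Rep.add {Q : Finset ℕ} {k l : ℕ} {x y : ℤ} (hx : Rep Q k x) (hy : Rep Q l y) :
    Rep Q (k + l) (x + y) := by
  obtain ⟨s, hs, rfl⟩ := hx
  obtain ⟨t, ht, rfl⟩ := hy
  refine ⟨Fin.append s t, fun i => ?_, ?_⟩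
  · refine Fin.addCases (fun j => ?_) (fun j => ?_) i
    · rw [Fin.append_left]; exact hs j
    · rw [Fin.append_right]; exact ht j
  · rw [Fin.sum_univ_add]
    simp [Fin.append_left, Fin.append_right]

lemma Rep.neg {Q : Finset ℕ} {k : ℕ} {x : ℤ} (hx : Rep Q k x) : Rep Q k (-x) := by
  obtain ⟨s, hs, rfl⟩ := hx
  exact ⟨fun i => -s i, fun i => neg_mem_gen (hs i), by rw [Finset.sum_neg_distrib]⟩

lemma Rep.mul {Q : Finset ℕ} {k : ℕ} {x : ℤ} (hx : Rep Q k x) {n : ℕ} (hn : n ∈ star Q) :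
    Rep Q k ((n : ℤ) * x) := by
  obtain ⟨s, hs, rfl⟩ := hx
  exact ⟨fun i => (n : ℤ) * s i, fun i => mul_mem_gen hn (hs i), by rw [Finset.mul_sum]⟩

lemma Rep.gen {Q : Finset ℕ} {x : ℤ} (hx : x ∈ gen Q) : Rep Q 1 x :=
  ⟨fun _ => x, fun _ => hx, by simp⟩

lemma Rep.nat (Q : Finset ℕ) (n : ℕ) : Rep Q n (n : ℤ) :=
  ⟨fun _ => 1, fun _ => one_mem_gen Q, by simp⟩

lemma exists_rep (Q : Finset ℕ) (x : ℤ) : ∃ k, Rep Q k x := by
  rcases Int.natAbs_eq x with h | h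
  · refine ⟨x.natAbs, ?_⟩
    have h2 := Rep.nat Q x.natAbs
    rwa [← h] at h2
  · refine ⟨x.natAbs, ?_⟩
    have h2 := (Rep.nat Q x.natAbs).neg
    rwa [← h] at h2

lemma rep_nrm (Q : Finset ℕ) (x : ℤ) : Rep Q (nrm Q x) x := Nat.sInf_mem (exists_rep Q x)

lemma nrm_le {Q : Finset ℕ} {k : ℕ} {x : ℤ} (h : Rep Q k x) : nrm Q x ≤ k := Nat.sInf_le h

lemma nrm_zero (Q : Finset ℕ) : nrm Q 0 = 0 := Nat.le_zero.1 (nrm_le (Rep.zero Q))

lemma nrm_add (Q : Finset ℕ) (x y : ℤ) : nrm Q (x + y) ≤ nrm Q x + nrm Q y :=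
  nrm_le ((rep_nrm Q x).add (rep_nrm Q y))

lemma nrm_neg (Q : Finset ℕ) (x : ℤ) : nrm Q (-x) = nrm Q x := by
  apply le_antisymm
  · exact nrm_le (rep_nrm Q x).neg
  · have h := nrm_le (rep_nrm Q (-x)).neg
    rwa [neg_neg] at h

lemma nrm_sub_comm (Q : Finset ℕ) (x y : ℤ) : nrm Q (x - y) = nrm Q (y - x) := by
  rw [← nrm_neg, neg_sub]

lemma nrm_mul (Q : Finset ℕ) {n : ℕ} (hn : n ∈ star Q) (x : ℤ) : nrm Q ((n : ℤ) * x) ≤ nrm Q x :=
  nrm_le ((rep_nrm Q x).mul hn)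

lemma nrm_star (Q : Finset ℕ) {n : ℕ} (hn : n ∈ star Q) : nrm Q (n : ℤ) ≤ 1 :=
  nrm_le (Rep.gen ⟨n, hn, Or.inl rfl⟩)

lemma nrm_sum {Q : Finset ℕ} {ι : Type} (s : Finset ι) (x : ι → ℤ) :
    nrm Q (∑ i ∈ s, x i) ≤ ∑ i ∈ s, nrm Q (x i) := by
  classical
  induction s using Finset.induction_on with
  | empty => simp [nrm_zero]
  | insert a s ha ih =>
    rw [Finset.sum_insert ha, Finset.sum_insert ha]
    exact (nrm_add Q _ _).trans (Nat.add_le_add_left ih _)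

/-- a controlled map is large scale Lipschitz -/
lemma lipschitz {P Q : Finset ℕ} {f : ℤ → ℤ} (hf : Controlled P Q f) :
    ∃ L : ℕ, ∀ x z : ℤ, nrm Q (f (z + x) - f z) ≤ L * nrm P x := by
  obtain ⟨L, hL⟩ := hf 1
  refine ⟨L, fun x => ?_⟩
  have key : ∀ (k : ℕ) (x : ℤ), Rep P k x → ∀ z, nrm Q (f (z + x) - f z) ≤ L * k := by
    intro k
    induction k with
    | zero =>
      rintro x ⟨s, -, rfl⟩ z
      simp [nrm_zero]
    | succ k ih =>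
      rintro x ⟨s, hs, rfl⟩ z
      rw [Fin.sum_univ_succ]
      have h1 := ih (∑ i : Fin k, s i.succ) ⟨fun i => s i.succ, fun i => hs _, rfl⟩ (z + s 0)
      have h2 : nrm Q (f (z + s 0) - f z) ≤ L := by
        apply hL
        rw [dist_eq]
        have h3 : z + s 0 - z = s 0 := by ring
        rw [h3]
        exact nrm_le (Rep.gen (hs 0))
      have h4 : f (z + (s 0 + ∑ i : Fin k, s i.succ)) - f z =
          (f (z + s 0 + ∑ i : Fin k, s i.succ) - f (z + s 0)) + (f (z + s 0) - f z) := by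
        rw [add_assoc]; ring
      rw [h4]
      refine (nrm_add Q _ _).trans ?_
      rw [mul_add, mul_one]
      exact Nat.add_le_add h1 h2
  exact key _ x (rep_nrm P x)

end Pool.Agent.X123.Coarse
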