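import Mathlib
import Pool.Agent.X123.Coarse.Defs
import Pool.Agent.TH419.WI.Classes

/-!
Consequences of the unit equation for sums of elements of `Q^*`.
-/

set_option autoImplicit false

namespace Pool.Agent.X123.Coarse

open Finset Pool.Agent.TH419.WI

lemma smooth_of_star {Q : Finset ℕ} (hQ : ∀ q ∈ Q, q.Prime) {n : ℕ} (hn : n ∈ star Q) :
    Smooth Q n := by
  obtain ⟨a, rfl⟩ := hn
  constructor
  · exact Finset.prod_ne_zero_iff.2 fun q hq => pow_ne_zero _ (hQ q hq).ne_zero
  · intro r hr
    have hrp := Nat.prime_of_mem_primeFactors hr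
    have hrd := Nat.dvd_of_mem_primeFactors hr
    obtain ⟨q, hq, hd⟩ := (Prime.dvd_finsetProd_iff hrp.prime _).1 hrd
    have h1 := hrp.dvd_of_dvd_pow hd
    rw [(Nat.prime_dvd_prime_iff_eq hrp (hQ q hq)).1 h1]
    exact hq

lemma Smooth.mono {Q S : Finset ℕ} (h : Q ⊆ S) {n : ℕ} (hn : Smooth Q n) : Smooth S n :=
  ⟨hn.1, hn.2.trans h⟩

lemma not_dvd_of_smooth {Q : Finset ℕ} {p : ℕ} (hp : p.Prime) (hpQ : p ∉ Q) {n : ℕ}
    (hn : Smooth Q n) : ¬ p ∣ n := fun h =>
  hpQ (hn.2 (Nat.mem_primeFactors.2 ⟨hp, h, hn.1⟩))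

/-- a high power of `p` times an element of `Q^*` is no short sum of elements of `Q^*`, if `p` is
not in `Q` -/
theorem high_power {Q : Finset ℕ} (hQ : ∀ q ∈ Q, q.Prime) {p : ℕ} (hp : p.Prime) (hpQ : p ∉ Q)
    (K : ℕ) : ∃ T : ℕ, ∀ u : ℕ, Smooth Q u → ∀ (κ : Type) (A : Finset κ) (v : κ → ℕ) (c : κ → ℤ),
      A.card ≤ K → (∀ i ∈ A, Smooth Q (v i)) → (∀ i ∈ A, |c i| ≤ 1) →
      (p : ℤ) ^ T * u ≠ ∑ i ∈ A, (v i : ℤ) * c i := by
  classical
  have hS : ∀ q ∈ insert p Q, q.Prime := by
    intro q hq
    rcases Finset.mem_insert.1 hq with rfl | h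
    · exact hp
    · exact hQ q h
  obtain ⟨M, hM⟩ := classes (insert p Q) hS (K + 1) 1
  refine ⟨M, fun u hu κ A v c hA hv hc heq => ?_⟩
  have hpM : M < p ^ M := Nat.lt_pow_self hp.one_lt
  have hpu : Smooth (insert p Q) (p ^ M * u) := by
    constructor
    · exact mul_ne_zero (pow_ne_zero _ hp.ne_zero) hu.1
    · rw [Nat.primeFactors_mul (pow_ne_zero _ hp.ne_zero) hu.1]
      apply Finset.union_subset
      · intro r hr
        have h1 := (Nat.prime_of_mem_primeFactors hr).dvd_of_dvd_pow (Nat.dvd_of_mem_primeFactors hr)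
        rw [(Nat.prime_dvd_prime_iff_eq (Nat.prime_of_mem_primeFactors hr) hp).1 h1]
        exact Finset.mem_insert_self _ _
      · exact hu.2.trans (Finset.subset_insert _ _)
  -- near is impossible
  have hnear : ∀ w : ℕ, Smooth Q w → ¬ Near M (p ^ M * u) w ∧ ¬ Near M w (p ^ M * u) := by
    intro w hw
    have hcop : Nat.Coprime (p ^ M) w :=
      Nat.Coprime.pow_left _ ((Nat.Prime.coprime_iff_not_dvd hp).2 (not_dvd_of_smooth hp hpQ hw))
    constructor
    · rintro ⟨a, b, ha, haM, hb, hbM, hab⟩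
      have h1 : p ^ M ∣ b * w := ⟨a * u, by rw [← hab]; ring⟩
      have h2 := Nat.le_of_dvd hb (hcop.dvd_of_dvd_mul_right h1)
      omega
    · rintro ⟨a, b, ha, haM, hb, hbM, hab⟩
      have h1 : p ^ M ∣ a * w := ⟨b * u, by rw [hab]; ring⟩
      have h2 := Nat.le_of_dvd ha (hcop.dvd_of_dvd_mul_right h1)
      omega
  have h := hM (Option κ) (Finset.insertNone A) (fun i => i.elim (p ^ M * u) v)
    (fun i => i.elim (-1) c) (fun i => i.elim 0 (fun _ => 1)) (by
      rw [Finset.card_insertNone]
      omega) (by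
      intro i hi
      cases i with
      | none => exact hpu
      | some i =>
        exact Smooth.mono (Finset.subset_insert _ _) (hv i (Finset.some_mem_insertNone.1 hi))) (by
      intro i hi
      cases i with
      | none => simp
      | some i => simpa using hc i (Finset.some_mem_insertNone.1 hi)) (by
      intro i hi j hj hn
      cases i with
      | none =>
        cases j with
        | none => rfl
        | some j => exact absurd hn (hnear _ (hv j (Finset.some_mem_insertNone.1 hj))).1
      | some i =>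
        cases j with
        | none => exact absurd hn (hnear _ (hv i (Finset.some_mem_insertNone.1 hi))).2
        | some j => rfl) (by
      rw [Finset.sum_insertNone]
      simp only [Option.elim_none, Option.elim_some]
      rw [← heq]
      push_cast
      ring) 0
  rw [Finset.sum_filter, Finset.sum_insertNone] at h
  simp only [Option.elim_none, Option.elim_some, if_true, one_ne_zero, if_false,
    Finset.sum_const_zero, add_zero] at h
  have h2 : ((p ^ M * u : ℕ) : ℤ) = 0 := by linarith
  exact hpu.1 (by exact_mod_cast h2)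

/-- chains of near numbers -/
lemma near_walk {ι : Type} {M : ℕ} (r : ι → ℕ) (G : SimpleGraph ι)
    (hG : ∀ i j, G.Adj i j → Near M (r i) (r j)) :
    ∀ {i j : ι} (w : G.Walk i j), ∃ a b : ℕ, 0 < a ∧ a ≤ M ^ w.length ∧ 0 < b ∧
      b ≤ M ^ w.length ∧ a * r i = b * r j := by
  intro i j w
  induction w with
  | nil => exact ⟨1, 1, by norm_num, by simp, by norm_num, by simp, rfl⟩
  | @cons i k j h w ih =>
    obtain ⟨a, b, ha, haM, hb, hbM, hab⟩ := ih
    obtain ⟨c, d, hc, hcM, hd, hdM, hcd⟩ := hG _ _ h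
    refine ⟨c * a, b * d, Nat.mul_pos hc ha, ?_, Nat.mul_pos hb hd, ?_, ?_⟩
    · rw [SimpleGraph.Walk.length_cons, pow_succ, mul_comm]
      exact Nat.mul_le_mul haM hcM
    · rw [SimpleGraph.Walk.length_cons, pow_succ]
      exact Nat.mul_le_mul hbM hdM
    · calc c * a * r i = a * (c * r i) := by ring
        _ = a * (d * r k) := by rw [hcd]
        _ = d * (a * r k) := by ring
        _ = d * (b * r j) := by rw [hab]
        _ = b * d * r j := by ring

/-- **splitting**: in a relation between a long sum of widely spaced powers of `q`, a short error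
and a sum of few elements of `Q^*`, one of the powers is a short sum -/
theorem split {Q : Finset ℕ} (hQ : ∀ q ∈ Q, q.Prime) {q : ℕ} (hq : q ∈ Q) (m Z F H : ℕ) :
    ∃ h : ℕ, ∀ (kZ kF : ℕ) (rZ : Fin kZ → ℕ) (cZ : Fin kZ → ℤ) (rF : Fin kF → ℕ) (cF : Fin kF → ℤ),
      kZ ≤ Z → kF ≤ F → (∀ i, Smooth Q (rZ i)) → (∀ i, Smooth Q (rF i)) → (∀ i, |cZ i| ≤ H) →
      (∀ i, |cF i| ≤ 1) → 1 ≤ H →
      (H : ℤ) * ∑ i : Fin m, ((q ^ (h * (i : ℕ)) : ℕ) : ℤ) + ∑ i, (rZ i : ℤ) * cZ i =
        ∑ i, (rF i : ℤ) * cF i →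
      ∀ K : ℕ, F < (m - Z) * (K + 1) →
        ∃ (u : ℕ) (A : Finset (Fin kF)), Smooth Q u ∧ A.card ≤ K ∧
          (H : ℤ) * u = ∑ i ∈ A, (rF i : ℤ) * cF i := by
  classical
  obtain ⟨M, hM⟩ := classes Q hQ (m + (Z + F)) H
  set N : ℕ := m + (Z + F) with hN
  have hq1 : 1 < q := (hQ q hq).one_lt
  refine ⟨(M + 1) ^ N, ?_⟩
  intro kZ kF rZ cZ rF cF hkZ hkF hrZ hrF hcZ hcF hH heq K hK
  have hqpow : ∀ e : ℕ, Smooth Q (q ^ e) := fun e =>
    smooth_of_star hQ (pow_mem_star (mem_star_of_mem hq) e)
  set h : ℕ := (M + 1) ^ N with hh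
  let ι : Type := Fin m ⊕ (Fin kZ ⊕ Fin kF)
  let r : ι → ℕ := Sum.elim (fun i => q ^ (h * (i : ℕ))) (Sum.elim rZ rF)
  let lam : ι → ℤ := Sum.elim (fun _ => (H : ℤ)) (Sum.elim cZ (fun i => -cF i))
  let G : SimpleGraph ι :=
    { Adj := fun i j => i ≠ j ∧ Near (M + 1) (r i) (r j)
      symm := ⟨by
        rintro i j ⟨hij, a, b, ha, ha', hb, hb', hab⟩
        exact ⟨hij.symm, b, a, hb, hb', ha, ha', hab.symm⟩⟩
      loopless := ⟨fun i hi => hi.1 rfl⟩ }
  let w : ι → ℕ := fun i => ((Finite.equivFin G.ConnectedComponent) (G.connectedComponentMk i) : ℕ)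
  have hw : ∀ i j, w i = w j ↔ G.Reachable i j := by
    intro i j
    rw [← SimpleGraph.ConnectedComponent.eq]
    constructor
    · intro h1
      exact (Finite.equivFin G.ConnectedComponent).injective (Fin.ext h1)
    · intro h1
      simp only [w]
      rw [h1]
  have hcard : Fintype.card ι = m + (kZ + kF) := by
    simp [ι]
  have hcls := hM ι Finset.univ r lam w (by
      rw [Finset.card_univ, hcard]
      omega) (by
      rintro (i | i | i) -
      · exact hqpow _
      · exact hrZ i
      · exact hrF i) (by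
      rintro (i | i | i) -
      · simp [lam]
      · simpa [lam] using hcZ i
      · simp only [lam, Sum.elim_inr, abs_neg]
        refine (hcF i).trans ?_
        exact_mod_cast hH) (by
      intro i _ j _ hn
      by_cases hij : i = j
      · rw [hij]
      · rw [hw]
        exact SimpleGraph.Adj.reachable ⟨hij, hn.mono (Nat.le_succ M)⟩) (by
      rw [Fintype.sum_sum_type, Fintype.sum_sum_type]
      simp only [r, lam, Sum.elim_inl, Sum.elim_inr]
      rw [← Finset.sum_mul, mul_comm _ (H : ℤ)]
      simp only [mul_neg, Finset.sum_neg_distrib]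
      linarith [heq])
  -- different powers of `q` are in different components
  have hsep : ∀ i i' : Fin m, w (Sum.inl i) = w (Sum.inl i') → i = i' := by
    have hlt : ∀ i i' : Fin m, (i : ℕ) < i' → ¬ w (Sum.inl i) = w (Sum.inl i') := by
      intro i i' hii h1
      obtain ⟨wk⟩ := (hw _ _).1 h1
      obtain ⟨a, b, ha, haM, hb, hbM, hab⟩ := near_walk (M := M + 1) r G (fun i j h => h.2)
        (wk.toPath).1
      have hlen : (wk.toPath).1.length ≤ N := by
        have h2 := wk.toPath.2.length_lt
        rw [hcard] at h2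
        omega
      have haN : a ≤ h := haM.trans (Nat.pow_le_pow_right (Nat.succ_pos M) hlen)
      simp only [r, Sum.elim_inl] at hab
      have h3 : h * (i' : ℕ) = h * (i : ℕ) + h * ((i' : ℕ) - i) := by
        rw [← mul_add]
        congr 1
        omega
      rw [h3, pow_add] at hab
      have h4 : a = b * q ^ (h * ((i' : ℕ) - i)) := by
        have h5 : 0 < q ^ (h * (i : ℕ)) := pow_pos (by omega) _
        have h6 : a * q ^ (h * (i : ℕ)) = (b * q ^ (h * ((i' : ℕ) - i))) * q ^ (h * (i : ℕ)) := by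
          rw [hab]; ring
        exact Nat.eq_of_mul_eq_mul_right h5 h6
      have h5 : q ^ h ≤ a := by
        rw [h4]
        calc q ^ h ≤ q ^ (h * ((i' : ℕ) - i)) :=
              Nat.pow_le_pow_right (by omega) (Nat.le_mul_of_pos_right _ (by omega))
          _ ≤ b * q ^ (h * ((i' : ℕ) - i)) := Nat.le_mul_of_pos_left _ hb
      have h6 : h < q ^ h := Nat.lt_pow_self hq1
      omega
    intro i i' h1
    rcases lt_trichotomy (i : ℕ) i' with h2 | h2 | h2
    · exact absurd h1 (hlt i i' h2)
    · exact Fin.ext h2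
    · exact absurd h1.symm (hlt i' i h2)
  -- the components without error terms
  let bad : Finset ℕ := Finset.univ.image (fun i : Fin kZ => w (Sum.inr (Sum.inl i)))
  let good : Finset (Fin m) := Finset.univ.filter (fun i => w (Sum.inl i) ∉ bad)
  have hgood : m - Z ≤ good.card := by
    have h1 : (Finset.univ.filter (fun i : Fin m => w (Sum.inl i) ∈ bad)).card ≤ kZ := by
      calc (Finset.univ.filter (fun i : Fin m => w (Sum.inl i) ∈ bad)).card ≤ bad.card := by
            refine Finset.card_le_card_of_injOn (fun i => w (Sum.inl i)) ?_ ?_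
            · intro i hi
              exact (Finset.mem_filter.1 hi).2
            · intro i _ j _ hij
              exact hsep i j hij
        _ ≤ kZ := by
            refine Finset.card_image_le.trans ?_
            simp
    have h2 := Finset.card_filter_add_card_filter_not (s := (Finset.univ : Finset (Fin m)))
      (fun i => w (Sum.inl i) ∈ bad)
    rw [Finset.card_univ, Fintype.card_fin] at h2
    have h3 : good.card = (Finset.univ.filter (fun i : Fin m => ¬ w (Sum.inl i) ∈ bad)).card := rfl
    omega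
  -- the terms of the sum in the component of `i`
  let A : Fin m → Finset (Fin kF) := fun i =>
    Finset.univ.filter (fun k => w (Sum.inr (Sum.inr k)) = w (Sum.inl i))
  have hAsum : ∑ i ∈ good, (A i).card ≤ kF := by
    have h1 : (good.biUnion A).card = ∑ i ∈ good, (A i).card := by
      refine Finset.card_biUnion ?_
      intro i _ j _ hij
      show Disjoint (A i) (A j)
      rw [Finset.disjoint_left]
      intro k hk hk'
      have h2 := (Finset.mem_filter.1 hk).2
      have h3 := (Finset.mem_filter.1 hk').2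
      exact hij (hsep i j (h2.symm.trans h3))
    rw [← h1]
    refine (Finset.card_le_univ _).trans ?_
    simp
  obtain ⟨i, hi, hAi⟩ : ∃ i ∈ good, (A i).card ≤ K := by
    by_contra hcon
    push Not at hcon
    have h1 : good.card * (K + 1) ≤ ∑ i ∈ good, (A i).card := by
      rw [← smul_eq_mul]
      exact Finset.card_nsmul_le_sum _ _ _ fun i hi => hcon i hi
    have h2 : (m - Z) * (K + 1) ≤ good.card * (K + 1) := Nat.mul_le_mul_right _ hgood
    omega
  refine ⟨q ^ (h * (i : ℕ)), A i, hqpow _, hAi, ?_⟩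
  have hc := hcls (w (Sum.inl i))
  rw [Finset.sum_filter, Fintype.sum_sum_type, Fintype.sum_sum_type] at hc
  simp only [r, lam, Sum.elim_inl, Sum.elim_inr] at hc
  have e1 : ∑ x : Fin m, (if w (Sum.inl x) = w (Sum.inl i) then
      ((q ^ (h * (x : ℕ)) : ℕ) : ℤ) * (H : ℤ) else 0) = ((q ^ (h * (i : ℕ)) : ℕ) : ℤ) * H := by
    rw [Finset.sum_eq_single i]
    · simp
    · intro j _ hj
      rw [if_neg]
      intro h1
      exact hj (hsep j i h1)
    · intro h1
      exact absurd (Finset.mem_univ _) h1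
  have e2 : ∑ x : Fin kZ, (if w (Sum.inr (Sum.inl x)) = w (Sum.inl i) then
      (rZ x : ℤ) * cZ x else 0) = 0 := by
    refine Finset.sum_eq_zero fun x _ => ?_
    rw [if_neg]
    intro h1
    have h2 := (Finset.mem_filter.1 hi).2
    apply h2
    rw [← h1]
    exact Finset.mem_image_of_mem _ (Finset.mem_univ x)
  have e3 : ∑ x : Fin kF, (if w (Sum.inr (Sum.inr x)) = w (Sum.inl i) then
      (rF x : ℤ) * (-cF x) else 0) = -∑ x ∈ A i, (rF x : ℤ) * cF x := by
    rw [← Finset.sum_filter, ← Finset.sum_neg_distrib]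
    exact Finset.sum_congr rfl fun x _ => by ring
  rw [e1, e2, e3] at hc
  push_cast at hc ⊢
  linarith
  
end Pool.Agent.X123.Coarse
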