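import Mathlib
import Pool.Agent.X123.Coarse.Unit

/-!
Coarse isomorphisms between the integers with the word metrics of products of powers of finitely
many primes.
-/

set_option autoImplicit false

namespace Pool.Agent.X123.Coarse

open Finset Pool.Agent.TH419.WI

/-- `x` is a combination of at most `k` elements of `Q^*` with coefficients at most `H` -/
def Comb (Q : Finset ℕ) (H k : ℕ) (x : ℤ) : Prop :=
  ∃ k' ≤ k, ∃ (r : Fin k' → ℕ) (c : Fin k' → ℤ), (∀ i, Smooth Q (r i)) ∧ (∀ i, |c i| ≤ H) ∧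
    x = ∑ i, (r i : ℤ) * c i

lemma Comb.add {Q : Finset ℕ} {H k l : ℕ} {x y : ℤ} (hx : Comb Q H k x) (hy : Comb Q H l y) :
    Comb Q H (k + l) (x + y) := by
  obtain ⟨k', hk, r, c, hr, hc, rfl⟩ := hx
  obtain ⟨l', hl, r', c', hr', hc', rfl⟩ := hy
  refine ⟨k' + l', Nat.add_le_add hk hl, Fin.append r r', Fin.append c c', fun i => ?_,
    fun i => ?_, ?_⟩
  · refine Fin.addCases (fun j => ?_) (fun j => ?_) i
    · rw [Fin.append_left]; exact hr j
    · rw [Fin.append_right]; exact hr' j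
  · refine Fin.addCases (fun j => ?_) (fun j => ?_) i
    · rw [Fin.append_left]; exact hc j
    · rw [Fin.append_right]; exact hc' j
  · rw [Fin.sum_univ_add]
    simp [Fin.append_left, Fin.append_right]

lemma comb_zero (Q : Finset ℕ) (H : ℕ) : Comb Q H 0 0 :=
  ⟨0, le_rfl, fun i => i.elim0, fun i => i.elim0, fun i => i.elim0, fun i => i.elim0, by simp⟩

lemma comb_sum {Q : Finset ℕ} {H E T : ℕ} {x : ℕ → ℤ} (hx : ∀ j < T, Comb Q H E (x j)) :
    Comb Q H (T * E) (∑ j ∈ Finset.range T, x j) := by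
  induction T with
  | zero => simpa using comb_zero Q H
  | succ T ih =>
    rw [Finset.sum_range_succ, add_mul, one_mul]
    exact (ih fun j hj => hx j (by omega)).add (hx T (by omega))

lemma comb_of_nrm {Q : Finset ℕ} (hQ : ∀ q ∈ Q, q.Prime) {H k : ℕ} {t x : ℤ} (ht : |t| ≤ H)
    (hx : nrm Q x ≤ k) : Comb Q H k (t * x) := by
  obtain ⟨s, hs, hsum⟩ := rep_nrm Q x
  choose n hn hn' using hs
  have h2 : ∀ i, ∃ c : ℤ, |c| ≤ 1 ∧ s i = n i * c := by
    intro i
    rcases hn' i with h | h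
    · exact ⟨1, by simp, by rw [h]; ring⟩
    · exact ⟨-1, by simp, by rw [h]; ring⟩
  choose c hc hc' using h2
  refine ⟨nrm Q x, hx, n, fun i => t * c i, fun i => smooth_of_star hQ (hn i), fun i => ?_, ?_⟩
  · rw [abs_mul]
    calc |t| * |c i| ≤ |t| * 1 := mul_le_mul_of_nonneg_left (hc i) (abs_nonneg _)
      _ ≤ H := by rw [mul_one]; exact ht
  · conv_lhs => rw [hsum]
    rw [Finset.mul_sum]
    refine Finset.sum_congr rfl fun i _ => ?_
    rw [hc' i]
    ring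

/-- the multiplicative defect of a quasimorphism -/
lemma mult_defect {Q : Finset ℕ} {f : ℤ → ℤ} {C : ℕ}
    (hC : ∀ x y, nrm Q (f (x + y) - (f x + f y)) ≤ C) (n : ℕ) (z : ℤ) :
    nrm Q (f ((n : ℤ) * z) - (n : ℤ) * f z) ≤ n * C + nrm Q (f 0) := by
  induction n with
  | zero => simp
  | succ n ih =>
    have h1 : f (((n + 1 : ℕ) : ℤ) * z) - ((n + 1 : ℕ) : ℤ) * f z =
        (f ((n : ℤ) * z + z) - (f ((n : ℤ) * z) + f z)) + (f ((n : ℤ) * z) - (n : ℤ) * f z) := by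
      have e : ((n + 1 : ℕ) : ℤ) * z = (n : ℤ) * z + z := by push_cast; ring
      rw [e]
      push_cast
      ring
    rw [h1]
    refine (nrm_add Q _ _).trans ?_
    have h2 := hC ((n : ℤ) * z) z
    calc _ ≤ C + (n * C + nrm Q (f 0)) := Nat.add_le_add h2 ih
      _ = (n + 1) * C + nrm Q (f 0) := by ring

lemma iterate_eq (f : ℤ → ℤ) (p x : ℤ) (T : ℕ) :
    f (p ^ T * x) = p ^ T * f x +
      ∑ j ∈ Finset.range T, p ^ (T - 1 - j) * (f (p ^ (j + 1) * x) - p * f (p ^ j * x)) := by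
  induction T with
  | zero => simp
  | succ T ih =>
    rw [Finset.sum_range_succ]
    have h1 : ∑ j ∈ Finset.range T, p ^ (T + 1 - 1 - j) *
        (f (p ^ (j + 1) * x) - p * f (p ^ j * x)) =
        p * ∑ j ∈ Finset.range T, p ^ (T - 1 - j) *
          (f (p ^ (j + 1) * x) - p * f (p ^ j * x)) := by
      rw [Finset.mul_sum]
      refine Finset.sum_congr rfl fun j hj => ?_
      have hj' := Finset.mem_range.1 hj
      have e : T + 1 - 1 - j = (T - 1 - j) + 1 := by omega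
      rw [e, pow_succ]
      ring
    rw [h1]
    have h2 : ∑ j ∈ Finset.range T, p ^ (T - 1 - j) *
          (f (p ^ (j + 1) * x) - p * f (p ^ j * x)) = f (p ^ T * x) - p ^ T * f x := by
      rw [ih]; ring
    rw [h2]
    have e : T + 1 - 1 - T = 0 := by omega
    rw [e]
    ring

/-- a prime in `P` is in `Q` if there is a coarse isomorphism `(ℤ, d_P) → (ℤ, d_Q)` -/
theorem subset_of {P Q : Finset ℕ} (hP : ∀ q ∈ P, q.Prime) (hQ : ∀ q ∈ Q, q.Prime)
    (hQne : Q.Nonempty) {f g : ℤ → ℤ} (hf : Controlled P Q f) {C : ℕ}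
    (hC : ∀ x y, nrm Q (f (x + y) - (f x + f y)) ≤ C) (hg : Controlled Q P g) {D : ℕ}
    (hD : ∀ y, nrm Q (f (g y) - y) ≤ D) : P ⊆ Q := by
  classical
  intro p hp
  by_contra hpQ
  obtain ⟨q, hq⟩ := hQne
  obtain ⟨L, hL⟩ := lipschitz hf
  obtain ⟨L', hL'⟩ := lipschitz hg
  have hpp := hP p hp
  set a : ℕ := nrm Q (f 0) + L * nrm P (g 0) with ha
  set b : ℕ := L * L' with hb
  have hbound : ∀ (y : ℤ) (T : ℕ), nrm Q (f ((p : ℤ) ^ T * g y)) ≤ a + b * nrm Q y := by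
    intro y T
    have h1 : nrm P ((p : ℤ) ^ T * g y) ≤ nrm P (g y) := by
      have h2 := nrm_mul P (pow_mem_star (mem_star_of_mem hp) T) (g y)
      push_cast at h2
      exact h2
    have h2 : nrm P (g y) ≤ nrm P (g 0) + L' * nrm Q y := by
      have h3 : g y = g 0 + (g (0 + y) - g 0) := by rw [zero_add]; ring
      rw [h3]
      exact (nrm_add P _ _).trans (Nat.add_le_add_left (hL' y 0) _)
    have h3 : nrm Q (f ((p : ℤ) ^ T * g y)) ≤ nrm Q (f 0) + L * nrm P ((p : ℤ) ^ T * g y) := by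
      have h4 : f ((p : ℤ) ^ T * g y) = f 0 + (f (0 + (p : ℤ) ^ T * g y) - f 0) := by
        rw [zero_add]; ring
      conv_lhs => rw [h4]
      exact (nrm_add Q _ _).trans (Nat.add_le_add_left (hL _ 0) _)
    calc _ ≤ nrm Q (f 0) + L * nrm P ((p : ℤ) ^ T * g y) := h3
      _ ≤ nrm Q (f 0) + L * (nrm P (g 0) + L' * nrm Q y) :=
          Nat.add_le_add_left (Nat.mul_le_mul_left _ (h1.trans h2)) _
      _ = a + b * nrm Q y := by rw [ha, hb]; ring
  obtain ⟨T, hT⟩ := high_power hQ hpp hpQ (2 * (a + b))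
  set E : ℕ := p * C + nrm Q (f 0) with hE
  set Z : ℕ := D + T * E with hZ
  set m : ℕ := 2 * Z + 2 with hm
  set F : ℕ := a + b * m with hF
  obtain ⟨h, hsplit⟩ := split hQ hq m Z F (p ^ T)
  set y : ℤ := ∑ i : Fin m, ((q ^ (h * (i : ℕ)) : ℕ) : ℤ) with hy
  have hynrm : nrm Q y ≤ m := by
    refine (nrm_sum _ _).trans ?_
    calc ∑ i : Fin m, nrm Q ((q ^ (h * (i : ℕ)) : ℕ) : ℤ) ≤ ∑ i : Fin m, 1 :=
          Finset.sum_le_sum fun i _ => nrm_star Q (pow_mem_star (mem_star_of_mem hq) _)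
      _ = m := by simp
  have hpow : ((p ^ T : ℕ) : ℤ) = (p : ℤ) ^ T := by push_cast; rfl
  -- the error terms
  have hZc : Comb Q (p ^ T) Z ((p : ℤ) ^ T * (f (g y) - y) +
      ∑ j ∈ Finset.range T, (p : ℤ) ^ (T - 1 - j) *
        (f ((p : ℤ) ^ (j + 1) * g y) - (p : ℤ) * f ((p : ℤ) ^ j * g y))) := by
    refine Comb.add ?_ (comb_sum fun j hj => ?_)
    · refine comb_of_nrm hQ ?_ (hD y)
      rw [abs_of_nonneg (by positivity)]
      exact le_of_eq hpow.symm
    · refine comb_of_nrm hQ ?_ ?_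
      · rw [abs_of_nonneg (by positivity), hpow]
        have h1 : (1 : ℤ) ≤ p := by exact_mod_cast hpp.one_lt.le
        exact pow_le_pow_right₀ h1 (by omega)
      · have h2 := mult_defect hC p ((p : ℤ) ^ j * g y)
        have e : (p : ℤ) * ((p : ℤ) ^ j * g y) = (p : ℤ) ^ (j + 1) * g y := by ring
        rw [e] at h2
        exact h2
  have hFc : Comb Q 1 F (f ((p : ℤ) ^ T * g y)) := by
    have h1 : nrm Q (f ((p : ℤ) ^ T * g y)) ≤ F :=
      (hbound y T).trans (by rw [hF]; exact Nat.add_le_add_left (Nat.mul_le_mul_left _ hynrm) _)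
    have h2 := comb_of_nrm (H := 1) (t := 1) hQ (by simp) h1
    rwa [one_mul] at h2
  obtain ⟨kZ, hkZ, rZ, cZ, hrZ, hcZ, hZeq⟩ := hZc
  obtain ⟨kF, hkF, rF, cF, hrF, hcF, hFeq⟩ := hFc
  have hcF' : ∀ i, |cF i| ≤ 1 := fun i => by simpa using hcF i
  obtain ⟨u, A, hu, hA, hAeq⟩ := hsplit kZ kF rZ cZ rF cF hkZ hkF hrZ hrF hcZ hcF'
    (Nat.one_le_pow _ _ hpp.pos) (by
      rw [← hZeq, ← hFeq, iterate_eq f (p : ℤ) (g y) T, hpow]
      ring) (2 * (a + b)) (by
      have h1 : m - Z = Z + 2 := by omega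
      rw [h1, hF, hm]
      nlinarith [Nat.zero_le a, Nat.zero_le b, Nat.zero_le Z, Nat.zero_le (a * Z),
        Nat.zero_le (b * Z)])
  refine hT u hu (Fin kF) A rF cF hA (fun i _ => hrF i) (fun i _ => hcF' i) ?_
  rw [← hpow]
  exact hAeq

/-- the coarse inverse is a coarse homomorphism -/
lemma inverse_hom {P Q : Finset ℕ} {f g : ℤ → ℤ} {C : ℕ}
    (hC : ∀ x y, nrm Q (f (x + y) - (f x + f y)) ≤ C) (hg : Controlled Q P g) {D : ℕ}
    (hD1 : ∀ x, nrm P (g (f x) - x) ≤ D) (hD2 : ∀ y, nrm Q (f (g y) - y) ≤ D) :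
    ∃ C' : ℕ, ∀ x y, nrm P (g (x + y) - (g x + g y)) ≤ C' := by
  obtain ⟨R, hR⟩ := hg (D + D + C)
  refine ⟨R + D, fun x y => ?_⟩
  have h1 : nrm Q ((x + y) - f (g x + g y)) ≤ D + D + C := by
    have e : (x + y) - f (g x + g y) = (-(f (g x) - x) + -(f (g y) - y)) +
        -(f (g x + g y) - (f (g x) + f (g y))) := by ring
    rw [e]
    refine (nrm_add Q _ _).trans (Nat.add_le_add ((nrm_add Q _ _).trans (Nat.add_le_add ?_ ?_)) ?_)
    · rw [nrm_neg]; exact hD2 x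
    · rw [nrm_neg]; exact hD2 y
    · rw [nrm_neg]; exact hC _ _
  have h2 := hR _ _ h1
  rw [dist_eq] at h2
  have e : g (x + y) - (g x + g y) =
      (g (x + y) - g (f (g x + g y))) + (g (f (g x + g y)) - (g x + g y)) := by ring
  rw [e]
  exact (nrm_add P _ _).trans (Nat.add_le_add h2 (hD1 _))

theorem main (P Q : Finset ℕ) (hP : P.Nonempty) (hQ : Q.Nonempty) (hP' : ∀ q ∈ P, q.Prime)
    (hQ' : ∀ q ∈ Q, q.Prime) : (∃ f, CoarseIso P Q f) ↔ P = Q := by
  constructor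
  · rintro ⟨f, ⟨hf, C, hC⟩, g, hg, D, hD⟩
    obtain ⟨C', hC'⟩ := inverse_hom (f := f) (g := g) hC hg (fun x => (hD x).1)
      (fun x => (hD x).2)
    exact Finset.Subset.antisymm (subset_of hP' hQ' hQ hf hC hg fun x => (hD x).2)
      (subset_of hQ' hP' hP hg hC' hf fun x => (hD x).1)
  · rintro rfl
    refine ⟨id, ⟨fun r => ⟨r, fun x y h => h⟩, 0, fun x y => ?_⟩, id, fun r => ⟨r, fun x y h => h⟩,
      0, fun x => ?_⟩
    · rw [dist_eq]; simp [nrm_zero]
    · rw [dist_eq]; simp [nrm_zero]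

end Pool.Agent.X123.Coarse
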